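import Mathlib

/-!
# Tree automata whose distributional map has infinitely many fixed points

For every finite set of states with at least three elements there are a tree automaton and a child
distribution (binary branching) for which the automaton distributional map has infinitely many
fixed points in the simplex of probability vectors.

Example with states `0, 1, 2`: two children in the states `0` and `i` give the state `i`
(`i = 1, 2`), and in all other cases the state is `0`. Then `(1/2, s, 1/2 - s)` is a fixed point
for every `s` in `[0, 1/2]`.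
-/

set_option autoImplicit false
set_option linter.unusedSectionVars false
set_option linter.unusedSimpArgs false
set_option linter.unusedVariables false

open Finset

namespace Pool.Agent.Results.MP_09543b_pr.InfinitelyManyFixedPoints

/-- The automaton distributional map of the tree automaton `A` and the child distribution `χ`:
`Psi A χ x σ` is the sum over the numbers `m` of children of `χ m` times the sum of
`m! / ∏ n_τ ! * ∏ x_τ ^ n_τ` over all count vectors `n` with `∑ n_τ = m` and `A n = σ`. -/
noncomputable def Psi {S : Type*} [Fintype S] [DecidableEq S] (A : (S → ℕ) → S) (χ : PMF ℕ)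
    (x : S → ℝ) (σ : S) : ℝ :=
  ∑' m : ℕ, (χ m).toReal *
    ∑ n ∈ (piAntidiag (univ : Finset S) m).filter (fun n => A n = σ),
      (Nat.multinomial univ n : ℝ) * ∏ τ, x τ ^ n τ

section

variable {S : Type*} [Fintype S] [DecidableEq S]

/-- the automaton: one child in the state `o`, the other one in the state `i ≠ o` give `i`; else
the state is `o` -/
noncomputable def Aut (o : S) (n : S → ℕ) : S :=
  open Classical in
  if h : ∃ i, i ≠ o ∧ n = Pi.single o 1 + Pi.single i 1 then h.choose else o

lemma single_inj {o i j : S} (hj : j ≠ o)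
    (h : (Pi.single o 1 + Pi.single i 1 : S → ℕ) = Pi.single o 1 + Pi.single j 1) : i = j := by
  have h1 := add_left_cancel h
  by_contra hne
  have h2 := congrFun h1 j
  simp [Pi.single_apply, Ne.symm hne] at h2

lemma Aut_eq (o i : S) (hi : i ≠ o) : Aut o (Pi.single o 1 + Pi.single i 1) = i := by
  have h : ∃ j, j ≠ o ∧ (Pi.single o 1 + Pi.single i 1 : S → ℕ) = Pi.single o 1 + Pi.single j 1 :=
    ⟨i, hi, rfl⟩
  unfold Aut
  rw [dif_pos h]
  exact (single_inj h.choose_spec.1 h.choose_spec.2).symm

lemma Aut_iff (o i : S) (hi : i ≠ o) (n : S → ℕ) :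
    Aut o n = i ↔ n = Pi.single o 1 + Pi.single i 1 := by
  constructor
  · intro h
    by_cases hn : ∃ j, j ≠ o ∧ n = Pi.single o 1 + Pi.single j 1
    · obtain ⟨j, hj, rfl⟩ := hn
      rw [Aut_eq o j hj] at h
      rw [h]
    · unfold Aut at h
      rw [dif_neg hn] at h
      exact absurd h.symm hi
  · rintro rfl
    exact Aut_eq o i hi

lemma Psi_two (A : (S → ℕ) → S) (x : S → ℝ) (σ : S) :
    Psi A (PMF.pure 2) x σ =
      ∑ n ∈ (piAntidiag (univ : Finset S) 2).filter (fun n => A n = σ),
        (Nat.multinomial univ n : ℝ) * ∏ τ, x τ ^ n τ := by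
  unfold Psi
  rw [tsum_eq_single 2]
  · simp
  · intro m hm
    simp [PMF.pure_apply, hm]

lemma mem_two (o i : S) (hi : i ≠ o) :
    (Pi.single o 1 + Pi.single i 1 : S → ℕ) ∈ piAntidiag (univ : Finset S) 2 := by
  rw [mem_piAntidiag]
  refine ⟨?_, fun _ _ => mem_univ _⟩
  simp [Pi.single_apply, sum_add_distrib]

lemma multinomial_two (o i : S) (hi : i ≠ o) :
    Nat.multinomial univ (Pi.single o 1 + Pi.single i 1 : S → ℕ) = 2 := by
  unfold Nat.multinomial
  have h1 : ∑ j, (Pi.single o 1 + Pi.single i 1 : S → ℕ) j = 2 := by
    simp [Pi.single_apply, sum_add_distrib]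
  have h2 : ∏ j, ((Pi.single o 1 + Pi.single i 1 : S → ℕ) j).factorial = 1 := by
    apply prod_eq_one
    intro j _
    by_cases hjo : j = o
    · subst hjo
      simp [Ne.symm hi]
    · by_cases hji : j = i
      · subst hji
        simp [hjo]
      · simp [hjo, hji]
  rw [h1, h2]
  rfl

lemma prod_two (o i : S) (x : S → ℝ) :
    ∏ τ, x τ ^ (Pi.single o 1 + Pi.single i 1 : S → ℕ) τ = x o * x i := by
  simp only [Pi.add_apply, pow_add, prod_mul_distrib]
  congr 1
  · rw [prod_eq_single o]
    · simp
    · intro b _ hb
      simp [Pi.single_apply, hb]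
    · simp
  · rw [prod_eq_single i]
    · simp
    · intro b _ hb
      simp [Pi.single_apply, hb]
    · simp

lemma Psi_ne (o i : S) (hi : i ≠ o) (x : S → ℝ) :
    Psi (Aut o) (PMF.pure 2) x i = 2 * (x o * x i) := by
  rw [Psi_two]
  have : (piAntidiag (univ : Finset S) 2).filter (fun n => Aut o n = i)
      = {Pi.single o 1 + Pi.single i 1} := by
    ext n
    simp only [mem_filter, mem_singleton, Aut_iff o i hi]
    constructor
    · exact fun h => h.2
    · rintro rfl
      exact ⟨mem_two o i hi, rfl⟩
  rw [this, sum_singleton, multinomial_two o i hi, prod_two]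
  norm_num

lemma sum_Psi (A : (S → ℕ) → S) (x : S → ℝ) :
    ∑ σ, Psi A (PMF.pure 2) x σ = (∑ σ, x σ) ^ 2 := by
  simp only [Psi_two]
  rw [sum_pow_eq_sum_piAntidiag]
  exact sum_fiberwise (piAntidiag (univ : Finset S) 2) A
    (fun n => (Nat.multinomial univ n : ℝ) * ∏ τ, x τ ^ n τ)

lemma fixed (o : S) (x : S → ℝ) (hx : ∑ σ, x σ = 1) (ho : x o = 1 / 2) :
    Psi (Aut o) (PMF.pure 2) x = x := by
  have h1 : ∀ i, i ≠ o → Psi (Aut o) (PMF.pure 2) x i = x i := by
    intro i hi
    rw [Psi_ne o i hi, ho]
    ring
  funext i
  by_cases hi : i = o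
  · subst hi
    have h2 := sum_Psi (Aut i) x
    rw [hx] at h2
    rw [← add_sum_erase _ _ (mem_univ i)] at h2 hx
    rw [sum_congr rfl fun j hj => h1 j (ne_of_mem_erase hj)] at h2
    linarith
  · exact h1 i hi

end

/-- **Theorem.** For every finite set `S` of states with at least three elements there are a tree
automaton `A` on `S` and a child distribution `χ` with `χ {2, 3, ...} > 0` such that the automaton
distributional map has infinitely many fixed points in the simplex of probability vectors. -/
theorem result (S : Type*) [Fintype S] [DecidableEq S] (hS : 3 ≤ Fintype.card S) :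
    ∃ (A : (S → ℕ) → S) (χ : PMF ℕ), 0 < χ.toMeasure {m | 2 ≤ m} ∧
      {x : S → ℝ | x ∈ stdSimplex ℝ S ∧ Psi A χ x = x}.Infinite := by
  obtain ⟨o, a, b, hoa, hob, hab⟩ := Fintype.two_lt_card_iff.mp (show 2 < Fintype.card S by omega)
  refine ⟨Aut o, PMF.pure 2, ?_, ?_⟩
  · rw [PMF.toMeasure_pure]
    simp
  · let g : ℝ → S → ℝ := fun s j => if j = o then 1 / 2 else if j = a then s else
      if j = b then 1 / 2 - s else 0
    have hsum : ∀ s, ∑ σ, g s σ = 1 := by
      intro s
      have h1 : ∀ j, g s j = (if j = o then 1 / 2 else 0) + ((if j = a then s else 0) +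
          (if j = b then 1 / 2 - s else 0)) := by
        intro j
        by_cases hjo : j = o
        · subst hjo
          simp [g, hoa, hob]
        · by_cases hja : j = a
          · subst hja
            simp [g, hjo, hab]
          · simp [g, hjo, hja]
      rw [sum_congr rfl fun j _ => h1 j, sum_add_distrib, sum_add_distrib]
      simp
      ring
    apply Set.infinite_of_injective_forall_mem (f := fun k : ℕ => g (1 / ((k : ℝ) + 2)))
    · intro k l hkl
      have h1 := congrFun hkl a
      simp only [g, if_neg (Ne.symm hoa), if_true] at h1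
      have hk : (0 : ℝ) < (k : ℝ) + 2 := by positivity
      have hl : (0 : ℝ) < (l : ℝ) + 2 := by positivity
      rw [one_div, one_div, inv_inj] at h1
      exact_mod_cast add_right_cancel h1
    · intro k
      have hk : (0 : ℝ) < (k : ℝ) + 2 := by positivity
      have h1 : 0 ≤ 1 / ((k : ℝ) + 2) := by positivity
      have h2 : 1 / ((k : ℝ) + 2) ≤ 1 / 2 := by
        apply one_div_le_one_div_of_le (by norm_num)
        have : (0 : ℝ) ≤ k := Nat.cast_nonneg k
        linarith
      refine ⟨⟨fun j => ?_, hsum _⟩, fixed o _ (hsum _) ?_⟩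
      · simp only [g]
        split_ifs
        · norm_num
        · exact h1
        · linarith
        · exact le_rfl
      · simp [g]

end Pool.Agent.Results.MP_09543b_pr.InfinitelyManyFixedPoints
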